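import Pool.Agent.Lib.MP_8f66f0_al_LQ.Conv
import Pool.Agent.Lib.MP_8f66f0_al_ZA.Zero
import Pool.Agent.Lib.MP_8f66f0_al_ZI.IntF

/-! The theorem on the class `LQ`. -/

set_option autoImplicit false

namespace Pool.Agent.LinAll

/-- For all torsion free groups `Γ` of the class and all Euclidean domains `L`, `K_1(LΓ)` is
generated by the units of `L` and the elements of `Γ`. -/
theorem lq_all {Γ : Type} [Group Γ] (h : LQ Γ)
    (ht : ∀ (g : Γ) (n : ℕ), 0 < n → g ^ n = 1 → g = 1) (L : Type) [CommRing L] [IsDomain L]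
    (hL : IsEuc L) : K1Units L Γ :=
  lq_k1 ZI.int_fin ZA.s_zero h ht L hL

end Pool.Agent.LinAll
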