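import Pool.Agent.Lib.MP_8f66f0_al_LQ.Defs
import Pool.Agent.Lib.MP_8f66f0_al_ZN.LQS
import Pool.Agent.Lib.MP_8f66f0_al_BN.NCF

/-! The classes of `LQ/Defs` and `ZN/LQD` agree; the theorem, from the rule `S_ZP KS` and the
theorem `S_INT`. -/

set_option autoImplicit false

namespace Pool.Agent.LinAll

theorem toLQ {Γ : Type} [Group Γ] (h : LQ Γ) : ZN.LQ Γ := by
  induction h with
  | gl d R => exact .gl d R
  | emb f hf _ ih => exact .emb f hf ih
  | directed S h1 h2 h3 _ ih => exact .directed S h1 h2 h3 ih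
  | ext f _ _ ih1 ih2 => exact .ext f ih1 ih2
  | tree T hT hadj _ ih => exact .tree T hT hadj ih
  | cube G N hG hN hadj _ ih => exact .cube G N ⟨hG.conn, hG.med⟩ hN hadj ih

/-- The theorem. -/
theorem lq_k1 (hI : ZN.S_INT) (hZ : ZN.S_ZP TreeC.KS) {Γ : Type} [Group Γ] (h : LQ Γ)
    (ht : ∀ (g : Γ) (n : ℕ), 0 < n → g ^ n = 1 → g = 1) (L : Type) [CommRing L] [IsDomain L]
    (hL : IsEuc L) : K1Units L Γ :=
  ZN.lq_main hI WhVan.shp_ks (QT.tqc_of_qc QT.qcB) CC.ccQ hZ (toLQ h) ht L hL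

end Pool.Agent.LinAll
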