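import Mathlib

/-! The definitions which are used in the theorem on the vanishing of the Whitehead groups of
torsion free linear groups. -/

set_option autoImplicit false

namespace Pool.Agent.LinAll

/-- Euclidean domains, as a property. -/
def IsEuc (L : Type) [CommRing L] : Prop :=
  ∃ N : L → ℕ, ∀ a b : L, b ≠ 0 → ∃ q r : L, a = q * b + r ∧ (r = 0 ∨ N r < N b)

/-- `K_1(LΓ)` is generated by the units of `L` and the elements of `Γ`: every invertible matrix
over `LΓ`, stabilised by an identity block, is `u g` (`u` a unit of `L`, `g` in `Γ`) on one diagonal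
entry times a product of commutators of invertible matrices. For `L = ℤ` this is the frozen form
of `Wh(Γ) = 0`. -/
def K1Units (L Γ : Type) [CommRing L] [Group Γ] : Prop :=
  ∀ (n : ℕ) (A : (Matrix (Fin n) (Fin n) (MonoidAlgebra L Γ))ˣ),
    ∃ (m : ℕ) (g : Γ) (u : Lˣ)
      (C : (Matrix (Fin n ⊕ Fin (m + 1)) (Fin n ⊕ Fin (m + 1)) (MonoidAlgebra L Γ))ˣ),
      C ∈ commutator (Matrix (Fin n ⊕ Fin (m + 1)) (Fin n ⊕ Fin (m + 1))
              (MonoidAlgebra L Γ))ˣ ∧
      Matrix.fromBlocks (↑A : Matrix (Fin n) (Fin n) (MonoidAlgebra L Γ))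
          (0 : Matrix (Fin n) (Fin (m + 1)) (MonoidAlgebra L Γ))
          (0 : Matrix (Fin (m + 1)) (Fin n) (MonoidAlgebra L Γ))
          (1 : Matrix (Fin (m + 1)) (Fin (m + 1)) (MonoidAlgebra L Γ)) =
        Matrix.diagonal (fun i : Fin n ⊕ Fin (m + 1) =>
            if i = Sum.inr (0 : Fin (m + 1)) then
              (MonoidAlgebra.single g ((u : L)) : MonoidAlgebra L Γ) else 1) *
          (↑C : Matrix (Fin n ⊕ Fin (m + 1)) (Fin n ⊕ Fin (m + 1)) (MonoidAlgebra L Γ))

/-- Median graphs (the 1-skeletons of the CAT(0) cube complexes, by Chepoi's theorem): connected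
graphs in which any three vertices have a unique median. -/
structure IsMedian {V : Type} (G : SimpleGraph V) : Prop where
  conn : G.Connected
  med : ∀ u v w : V, ∃! m : V, G.dist u m + G.dist m v = G.dist u v ∧
    G.dist v m + G.dist m w = G.dist v w ∧ G.dist u m + G.dist m w = G.dist u w

/-- `G` contains no cube of dimension `n`. -/
def NoCube {V : Type} (G : SimpleGraph V) (n : ℕ) : Prop :=
  ∀ f : (Fin n → Bool) → V, Function.Injective f →
    ¬ ∀ (x : Fin n → Bool) (i : Fin n), G.Adj (f x) (f (Function.update x i (!x i)))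

/-- The least class of groups which contains all groups `GL_d(R)`, for all `d` and all commutative
rings `R`, and is closed under isomorphism and subgroups (`emb`), directed unions, extensions, and

* actions on trees with all vertex stabilizers in the class (inversions of edges are allowed, and
  there is no condition on the edge stabilizers);
* actions on CAT(0) cube complexes of finite dimension with all vertex stabilizers in the class:
  the group acts on the `1`-skeleton `G`, a median graph which contains no cube of dimension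
  `N + 1` (inversions are allowed, the graph may be locally infinite, and there is no condition on
  the stabilizers of the cubes).

(So all finite, all abelian and all elementary amenable groups, and all subgroups of `GL_d(R)` for
commutative rings `R` are in the class; the groups in the class may have torsion.) -/
inductive LQ : (Γ : Type) → [Group Γ] → Prop
  | gl (d : ℕ) (R : Type) [CommRing R] : LQ (Matrix.GeneralLinearGroup (Fin d) R)
  | emb {Γ Γ' : Type} [Group Γ] [Group Γ'] (f : Γ' →* Γ) : Function.Injective f → LQ Γ → LQ Γ'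
  | directed {Γ : Type} [Group Γ] (S : Set (Subgroup Γ)) : S.Nonempty →
      DirectedOn (· ≤ ·) S → (∀ g : Γ, ∃ K ∈ S, g ∈ K) → (∀ K ∈ S, LQ K) → LQ Γ
  | ext {Γ Q : Type} [Group Γ] [Group Q] (f : Γ →* Q) : LQ f.ker → LQ Q → LQ Γ
  | tree {Γ V : Type} [Group Γ] [MulAction Γ V] (T : SimpleGraph V) : T.IsTree →
      (∀ (g : Γ) (v w : V), T.Adj v w → T.Adj (g • v) (g • w)) →
      (∀ v : V, LQ (MulAction.stabilizer Γ v)) → LQ Γ
  | cube {Γ V : Type} [Group Γ] [MulAction Γ V] (G : SimpleGraph V) (N : ℕ) : IsMedian G →
      NoCube G (N + 1) → (∀ (g : Γ) (v w : V), G.Adj v w → G.Adj (g • v) (g • w)) →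
      (∀ v : V, LQ (MulAction.stabilizer Γ v)) → LQ Γ

end Pool.Agent.LinAll
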